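import Pool.Agent.TH90.Cub.Util

set_option autoImplicit false

open CategoryTheory AlgebraicGeometry Pool.Agent.TH90.Cub

namespace Pool.Agent.Results.MP_c71c7a_nt.GateComplements

/-- The formal properties used of the groups `H i X = H^i(X_et, ℤ^c(0))` of arithmetic schemes `X`
(separated, of finite type over `ℤ`) and of `M d i X = H^i(X_et, ℤ(d))` for regular `X`: `H` only
depends on `X` up to isomorphism, vanishes for the empty scheme, satisfies the localisation
sequences `H^{i-1}(X \ Z) → H^i(Z) → H^i(X) → H^i(X \ Z)` for closed `Z ⊆ X`, and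
`H^i(X_et, ℤ(d)) ≅ H^{i-2d}(X_et, ℤ^c(0))` if `X` is regular, connected, of dimension `d`. If `X` is
moreover proper, then `H^i(X_et, ℤ(d)) = H^i(X, ℚ(d))` for `i < 0`, so multiplication by integers
`n ≠ 0` is bijective on this group. -/
structure CycleCohomology where
  /-- `H^i(X_et, ℤ^c(0))` -/
  H : ℤ → Scheme.{0} → Type
  grp : ∀ i X, AddCommGroup (H i X)
  iso : ∀ (i : ℤ) {X Y : Scheme.{0}} (_ : X ≅ Y)
    (g : Y ⟶ Spec (CommRingCat.of ℤ)), FT True ℤ g → Nonempty (H i X ≃+ H i Y)
  empty : ∀ (i : ℤ) (X : Scheme.{0}), IsEmpty X → Subsingleton (H i X)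
  localization : ∀ {Z X U : Scheme.{0}} (f : X ⟶ Spec (CommRingCat.of ℤ)) (i : Z ⟶ X)
    (j : U ⟶ X), FT True ℤ f → IsClosedImmersion i → IsOpenImmersion j →
    Set.range i = (Set.range j)ᶜ → ∀ m : ℤ,
    ∃ (bd : H (m - 1) U →+ H m Z) (push : H m Z →+ H m X) (res : H m X →+ H m U),
      Function.Exact bd push ∧ Function.Exact push res
  /-- `H^i(X_et, ℤ(d))` -/
  M : ℕ → ℤ → Scheme.{0} → Type
  grpM : ∀ d i X, AddCommGroup (M d i X)
  comparison : ∀ (d : ℕ) (X : Scheme.{0}) (f : X ⟶ Spec (CommRingCat.of ℤ)), FT True ℤ f →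
    RegularScheme X → ConnectedSpace X → topologicalKrullDim X = d → ∀ i : ℤ,
    Nonempty (M d i X ≃+ H (i - 2 * d) X)
  rational : ∀ (d : ℕ) (X : Scheme.{0}) (f : X ⟶ Spec (CommRingCat.of ℤ)), IsProper f →
    RegularScheme X → ConnectedSpace X → topologicalKrullDim X = d → ∀ i < 0, ∀ n : ℤ, n ≠ 0 →
    Function.Bijective (fun x : M d i X => n • x)

attribute [instance] CycleCohomology.grp CycleCohomology.grpM

/-- The complement in affine space over `ℤ` of the hypersurface `h = 0`. -/
noncomputable abbrev Complement {N : ℕ} (h : MvPolynomial (Fin N) ℤ) : Scheme.{0} :=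
  Spec (CommRingCat.of (Localization.Away h))

/-- A finitely generated group on which the multiplication by integers is bijective is zero. -/
theorem subsingleton_of_fg {A : Type} [AddCommGroup A] (hA : AddGroup.FG A)
    (h : ∀ n : ℤ, n ≠ 0 → Function.Bijective (fun x : A => n • x)) : Subsingleton A := by
  have hfg : (⊤ : Submodule ℤ A).FG := by
    have : Module.Finite ℤ A := Module.Finite.iff_addGroup_fg.mpr hA
    exact this.fg_top
  have hle : (⊤ : Submodule ℤ A) ≤ Ideal.span {(2 : ℤ)} • (⊤ : Submodule ℤ A) := by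
    intro x _
    obtain ⟨y, hy⟩ := (h 2 (by norm_num)).2 x
    have hy' : (2 : ℤ) • y = x := hy
    rw [← hy']
    exact Submodule.smul_mem_smul (Ideal.subset_span rfl) trivial
  obtain ⟨r, hr, hr'⟩ := Submodule.exists_sub_one_mem_and_smul_eq_zero_of_fg_of_le_smul
    (Ideal.span {(2 : ℤ)}) (⊤ : Submodule ℤ A) hfg hle
  have hr0 : r ≠ 0 := by
    rintro rfl
    rw [Ideal.mem_span_singleton] at hr
    omega
  refine ⟨fun x y => (h r hr0).1 ?_⟩
  change r • x = r • y
  rw [hr' x trivial, hr' y trivial]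

/-- The groups `H^i(X_et, ℤ^c(0))` are finitely generated for all arithmetic schemes `X` and all
`i ≤ 0` if and only if they are so for the complements in affine spaces over `ℤ` of the unions of
finitely many hypersurfaces `x_a x_b = x_c`, `x_a + x_b = x_c`, `x_a = 1`. If this is so, then for
all proper, regular, connected arithmetic schemes `X` of dimension `d` the groups `H^i(X_et, ℤ(d))`
are finitely generated for `0 ≤ i ≤ 2d` and zero for `i < 0`. -/
theorem result (T : CycleCohomology) :
    ((∀ (X : Scheme.{0}) (f : X ⟶ Spec (CommRingCat.of ℤ)), FT True ℤ f → ∀ i ≤ 0,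
        AddGroup.FG (T.H i X)) ↔
      (∀ (N : ℕ) (h : MvPolynomial (Fin N) ℤ), h ∈ Submonoid.closure {g | IsGate {1} g} →
        ∀ i ≤ 0, AddGroup.FG (T.H i (Complement h)))) ∧
    ((∀ (N : ℕ) (h : MvPolynomial (Fin N) ℤ), h ∈ Submonoid.closure {g | IsGate {1} g} →
        ∀ i ≤ 0, AddGroup.FG (T.H i (Complement h))) →
      ∀ (d : ℕ) (X : Scheme.{0}) (f : X ⟶ Spec (CommRingCat.of ℤ)), IsProper f →
        RegularScheme X → ConnectedSpace X → topologicalKrullDim X = d →
        (∀ i : ℤ, 0 ≤ i → i ≤ 2 * d → AddGroup.FG (T.M d i X)) ∧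
        (∀ i < 0, Subsingleton (T.M d i X))) := by
  have hall : (∀ (N : ℕ) (h : MvPolynomial (Fin N) ℤ), h ∈ Submonoid.closure {g | IsGate {1} g} →
        ∀ i ≤ 0, AddGroup.FG (T.H i (Complement h))) →
      (∀ (X : Scheme.{0}) (f : X ⟶ Spec (CommRingCat.of ℤ)), FT True ℤ f → ∀ i ≤ 0,
        AddGroup.FG (T.H i X)) := by
    intro h X f hf i hi
    let P : ∀ X : Scheme.{0}, (X ⟶ Spec (CommRingCat.of ℤ)) → Prop :=
      fun X _ => ∀ i ≤ 0, AddGroup.FG (T.H i X)
    have hP : IsDevissage True ℤ P :=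
      { iso := by
          intro X Y e g hg hX m hm
          obtain ⟨E⟩ := T.iso m e g hg
          exact fg_iso E (hX m hm)
        empty := by
          intro X f hX m hm
          exact fg_subsingleton (T.empty m X hX)
        closed := by
          intro Z X U f i j hf hi hj hr hX hU m hm
          obtain ⟨bd, push, res, h1, h2⟩ := T.localization f i j hf hi hj hr m
          exact fg_mid bd push h1 (hU (m - 1) (by omega)) (hX m hm)
        total := by
          intro Z X U f i j hf hi hj hr hZ hU m hm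
          obtain ⟨bd, push, res, h1, h2⟩ := T.localization f i j hf hi hj hr m
          exact fg_mid push res h2 (hZ m hm) (hU m hm) }
    exact all_of_gates closure_one_int (Set.mem_singleton 1) hP (fun N h' hh' => h N h' hh')
      f hf i hi
  refine ⟨⟨fun h N h' _ i hi => h _ (str ℤ _) (ft_gate h') i hi, hall⟩, ?_⟩
  intro h d X f hf hreg hcon hdim
  have hft : FT True ℤ f := ⟨inferInstance, inferInstance, fun _ => inferInstance⟩
  have hfg : ∀ i : ℤ, i ≤ 2 * d → AddGroup.FG (T.M d i X) := by
    intro i hi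
    obtain ⟨E⟩ := T.comparison d X f hft hreg hcon hdim i
    exact fg_iso E.symm (hall h X f hft (i - 2 * d) (by omega))
  exact ⟨fun i _ hi => hfg i hi, fun i hi =>
    subsingleton_of_fg (hfg i (by omega)) (T.rational d X f hf hreg hcon hdim i hi)⟩

end Pool.Agent.Results.MP_c71c7a_nt.GateComplements
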